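import Pool.Agent.U517.DE.Tree

/-!
# Euclidean Dirichlet-improvable numbers which are not badly approximable (MP_613544_nt, Q1)

The set `DI₂ \ BA` has full Hausdorff dimension, and so has its intersection with every nonempty
open set.

A vertical geodesic ending at `x` comes close to a point of the orbit of the hexagonal point at a
low height only if `|2 A x + B|` is small for an integral form `(A, B, C)` of discriminant `-3`
with a large `A`; so `x ∈ DI₂` as soon as these numbers are bounded below.  The centres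
`-B / (2 A)` with `A` in `[2^j, 2^{j+1})` are separated by `2^{-j-1}`; hence, when an interval is
divided into `R` parts, all but `O(log R)` of them avoid the centres of the next level, and the
Cantor set has dimension close to one.  At sparse levels we move close to a rational number `p/q`:
of two neighbouring fractions at least one is not close to a centre, by a parity argument, and
below the level `1/q²` there are no centres close to `p/q`.
-/

set_option autoImplicit false

namespace Pool.Agent.Results.MP_613544_nt.FullDimension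

open Pool.Agent.U517.DE (DI2 Hex Tgt tree mem_DI2)

/-- Badly approximable numbers. -/
def BA : Set ℝ :=
  {x | ∃ δ : ℝ, 0 < δ ∧ ∀ p q : ℤ, q ≠ 0 → δ ≤ |q * x - p| * |(q:ℝ)|}

lemma Tgt_subset (L : ℕ) (A₀ : ℝ) : Tgt L A₀ ⊆ DI2 \ BA := by
  rintro x ⟨h1, h2⟩
  refine ⟨mem_DI2 (by positivity) h1, ?_⟩
  rintro ⟨δ, hδ, h3⟩
  obtain ⟨k, hk⟩ := exists_nat_gt (2 / δ)
  have hk0 : (0:ℝ) < k := lt_trans (by positivity) hk
  obtain ⟨p, q, hq, hpq⟩ := h2 k (by exact_mod_cast hk0)
  have h4 := (h3 p q hq).trans hpq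
  rw [div_lt_iff₀ hδ] at hk
  rw [le_div_iff₀ hk0] at h4
  linarith

lemma lower {U : Set ℝ} (hU : IsOpen U) (hne : U.Nonempty) : 1 ≤ dimH (U ∩ (DI2 \ BA)) := by
  obtain ⟨x, hx⟩ := hne
  obtain ⟨e, he, hball⟩ := Metric.isOpen_iff.1 hU x hx
  refine le_of_forall_lt fun c hc => ?_
  obtain ⟨s, hcs, hs1⟩ := ENNReal.lt_iff_exists_nnreal_btwn.1 hc
  have hs1' : (s:ℝ) < 1 := by exact_mod_cast hs1
  have hs0 : (0:ℝ) < s := by
    have : (0:ENNReal) < s := lt_of_le_of_lt zero_le hcs
    exact_mod_cast this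
  obtain ⟨n, hn⟩ := exists_nat_ge (3 / (1 - (s:ℝ)))
  have hL : 6 ≤ n + 6 := by omega
  have hsL : (((n + 6 : ℕ) : ℝ) + 1) * s ≤ ((n + 6 : ℕ) : ℝ) - 2 := by
    rw [div_le_iff₀ (by linarith)] at hn
    push_cast
    nlinarith
  obtain ⟨A₀, hA₀⟩ := tree hL hs0 hsL x (ρ₀ := min (e / 2) 1) (by positivity) (min_le_right _ _)
  have h1 : (s:ENNReal) ≤ dimH (U ∩ (DI2 \ BA)) := by
    rw [← ENNReal.ofReal_coe_nnreal]
    refine hA₀.trans (dimH_mono ?_)
    rintro y ⟨hy1, hy2, hy3⟩
    refine ⟨hball ?_, Tgt_subset _ _ hy1⟩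
    rw [Metric.mem_ball, Real.dist_eq, abs_of_nonneg (by linarith)]
    have := min_le_left (e / 2) 1
    linarith
  exact lt_of_lt_of_le hcs h1

/-- `DI₂ \ BA` has Hausdorff dimension one, also locally. -/
theorem result :
    dimH (DI2 \ BA) = 1 ∧
    ∀ U : Set ℝ, IsOpen U → U.Nonempty → dimH (U ∩ (DI2 \ BA)) = 1 := by
  have hup : ∀ S : Set ℝ, dimH S ≤ 1 := fun S => by
    rw [← Real.dimH_univ]
    exact dimH_mono (Set.subset_univ S)
  refine ⟨le_antisymm (hup _) ?_, fun U hU hne => le_antisymm (hup _) (lower hU hne)⟩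
  have := lower isOpen_univ Set.univ_nonempty
  rwa [Set.univ_inter] at this

end Pool.Agent.Results.MP_613544_nt.FullDimension
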